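import Mathlib
import Pool.Agent.H279R3.TreeHelly

/-!
General lemmas for the strong tree-breadth example: one-Lipschitz functions, cut vertices,
unions of connected sets, and the cyclic Helly lemma.
-/

set_option autoImplicit false

namespace Pool.Agent.Q124.STB

open SimpleGraph H279R3

/-- a one-Lipschitz function bounds distances from below -/
theorem lip {V : Type} {G : SimpleGraph V} (hG : G.Connected) (f : V → ℤ)
    (h : ∀ u v, G.Adj u v → f v ≤ f u + 1) (u v : V) : f v ≤ f u + G.dist u v := by
  obtain ⟨p, hp⟩ := hG.exists_walk_length_eq_dist u v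
  rw [← hp]
  clear hp
  induction p with
  | nil => simp
  | cons hab p ih =>
    have := h _ _ hab
    rw [Walk.length_cons]
    push_cast
    linarith

/-- distances add up across a cut vertex -/
theorem cut {V : Type} {G : SimpleGraph V} (hG : G.Connected) (S : Set V) (w : V) (hw : w ∈ S)
    (hS : ∀ x ∈ S, ∀ y, y ∉ S → G.Adj x y → x = w) {u z : V} (hu : u ∈ S) (hz : z ∉ S) :
    G.dist u w + G.dist w z ≤ G.dist u z := by
  classical
  have key := lip hG (fun x => if x ∈ S then (G.dist u x : ℤ) else G.dist u w + G.dist w x) (by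
    intro a b hab
    have hd : G.dist a b = 1 := SimpleGraph.dist_eq_one_iff_adj.2 hab
    by_cases ha : a ∈ S <;> by_cases hb : b ∈ S <;> simp only [ha, hb, if_true, if_false]
    · have := hG.dist_triangle (u := u) (v := a) (w := b)
      rw [hd] at this
      exact_mod_cast this
    · have := hS a ha b hb hab
      subst this
      rw [hd]; norm_num
    · have := hS b hb a ha hab.symm
      subst this
      have : (0 : ℤ) ≤ G.dist b a := by positivity
      linarith
    · have := hG.dist_triangle (u := w) (v := a) (w := b)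
      rw [hd] at this
      have h2 : (G.dist w b : ℤ) ≤ G.dist w a + 1 := by exact_mod_cast this
      linarith) u z
  simp only [hu, hz, if_true, if_false, SimpleGraph.dist_self] at key
  push_cast at key
  have : ((G.dist u w + G.dist w z : ℕ) : ℤ) ≤ (G.dist u z : ℕ) := by push_cast; linarith
  exact_mod_cast this

theorem wconn_of_preconnected {α : Type} {T : SimpleGraph α} {S : Set α}
    (h : (T.induce S).Preconnected) : WConn T S := by
  intro i hi j hj
  obtain ⟨p⟩ := h ⟨i, hi⟩ ⟨j, hj⟩
  refine ⟨p.map (SimpleGraph.Embedding.induce S).toHom, fun x hx => ?_⟩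
  have hx' : x ∈ p.support.map (SimpleGraph.Embedding.induce (G := T) S).toHom := by
    rw [← Walk.support_map]; exact hx
  obtain ⟨y, -, rfl⟩ := List.mem_map.1 hx'
  exact y.2

theorem wconn_union {α : Type} {T : SimpleGraph α} {A B : Set α} (hA : WConn T A)
    (hB : WConn T B) (h : (A ∩ B).Nonempty) : WConn T (A ∪ B) := by
  obtain ⟨z, hzA, hzB⟩ := h
  have key : ∀ x ∈ A ∪ B, ∃ q : T.Walk x z, ∀ y ∈ q.support, y ∈ A ∪ B := by
    rintro x (hx | hx)
    · obtain ⟨q, hq⟩ := hA x hx z hzA
      exact ⟨q, fun y hy => Or.inl (hq y hy)⟩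
    · obtain ⟨q, hq⟩ := hB x hx z hzB
      exact ⟨q, fun y hy => Or.inr (hq y hy)⟩
  intro x hx y hy
  obtain ⟨q, hq⟩ := key x hx
  obtain ⟨q', hq'⟩ := key y hy
  refine ⟨q.append q'.reverse, fun w hw => ?_⟩
  rw [Walk.mem_support_append_iff] at hw
  rcases hw with hw | hw
  · exact hq w hw
  · rw [Walk.support_reverse, List.mem_reverse] at hw
    exact hq' w hw

/-- a run of consecutively meeting connected sets has a connected union -/
theorem wconn_run {α : Type} {T : SimpleGraph α} (N : ℕ → Set α) (hN : ∀ q, WConn T (N q))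
    (hm : ∀ q, (N q ∩ N (q + 1)).Nonempty) (n : ℕ) : WConn T {i | ∃ j ≤ n, i ∈ N j} := by
  induction n with
  | zero =>
    have : {i | ∃ j ≤ 0, i ∈ N j} = N 0 := by
      ext i; simp
    rw [this]; exact hN 0
  | succ n ih =>
    have : {i | ∃ j ≤ n + 1, i ∈ N j} = {i | ∃ j ≤ n, i ∈ N j} ∪ N (n + 1) := by
      ext i
      simp only [Set.mem_setOf_eq, Set.mem_union]
      constructor
      · rintro ⟨j, hj, hi⟩
        rcases Nat.lt_or_ge j (n + 1) with h | h
        · exact Or.inl ⟨j, by omega, hi⟩
        · have : j = n + 1 := by omega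
          exact Or.inr (this ▸ hi)
      · rintro (⟨j, hj, hi⟩ | hi)
        · exact ⟨j, by omega, hi⟩
        · exact ⟨n + 1, le_refl _, hi⟩
    rw [this]
    obtain ⟨x, hx1, hx2⟩ := hm n
    exact wconn_union ih (hN _) ⟨x, ⟨n, le_refl _, hx1⟩, hx2⟩

/-- sixteen connected sets arranged cyclically, consecutive ones meeting: some node meets every
run of nine consecutive sets -/
theorem cyc {α : Type} {T : SimpleGraph α} (hT : T.IsTree) (N : ZMod 16 → Set α)
    (hN : ∀ q, WConn T (N q)) (hm : ∀ q, (N q ∩ N (q + 1)).Nonempty) :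
    ∃ x, ∀ m : ZMod 16, ∃ j : ℕ, j ≤ 8 ∧ x ∈ N (m + j) := by
  refine helly hT (fun m : ZMod 16 => {i | ∃ j ≤ 8, i ∈ N (m + (j : ℕ))}) (fun m => ?_)
    (fun m m' => ?_)
  · refine wconn_run (fun j => N (m + (j : ℕ))) (fun j => hN _) (fun j => ?_) 8
    have := hm (m + (j : ℕ))
    rwa [add_assoc, show ((j : ℕ) : ZMod 16) + 1 = ((j + 1 : ℕ) : ZMod 16) by push_cast; rfl]
      at this
  · have key : ∀ m m' : ZMod 16, ∃ j j' : Fin 9, m + ((j : ℕ) : ZMod 16) = m' + ((j' : ℕ) : ZMod 16) := by
      decide
    obtain ⟨j, j', hj⟩ := key m m'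
    obtain ⟨x, hx, -⟩ := hm (m + ((j : ℕ) : ZMod 16))
    refine ⟨x, ⟨j, by omega, hx⟩, ⟨j', by omega, ?_⟩⟩
    rw [← hj]; exact hx

/-- a connected graph in which every edge joins a vertex to its parent is a tree -/
theorem isTree_of_parent {V : Type} (T : SimpleGraph V) (β : V → ℕ) (par : V → V)
    (h : ∀ u v, T.Adj u v → (β v < β u ∧ v = par u) ∨ (β u < β v ∧ u = par v))
    (hc : T.Connected) : T.IsTree := by
  classical
  refine ⟨hc, fun v c hcyc => ?_⟩
  obtain ⟨u, hu, hmax⟩ := c.support.toFinset.exists_max_image β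
    ⟨v, List.mem_toFinset.2 c.start_mem_support⟩
  have hu' : u ∈ c.support := List.mem_toFinset.1 hu
  have hc' := hcyc.rotate hu'
  have hmax' : ∀ w ∈ (c.rotate u hu').support, β w ≤ β u := fun w hw =>
    hmax w (List.mem_toFinset.2 ((SimpleGraph.Walk.mem_support_rotate_iff c u hu').1 hw))
  have hnil := hc'.not_nil
  have a1 := (c.rotate u hu').adj_snd hnil
  have a2 := (c.rotate u hu').adj_penultimate hnil
  have b1 := hmax' _ ((c.rotate u hu').getVert_mem_support 1)
  have b2 := hmax' _ ((c.rotate u hu').getVert_mem_support ((c.rotate u hu').length - 1))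
  have e1 : (c.rotate u hu').snd = par u := by
    rcases h _ _ a1 with h1 | h1
    · exact h1.2
    · exact absurd h1.1 (not_lt.2 b1)
  have e2 : (c.rotate u hu').penultimate = par u := by
    rcases h _ _ a2 with h1 | h1
    · exact absurd h1.1 (not_lt.2 b2)
    · exact h1.2
  exact hc'.snd_ne_penultimate (e1.trans e2.symm)

end Pool.Agent.Q124.STB
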