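import Mathlib
import Pool.Agent.Q124.STB.Base

/-!
The recursive wheels: each rim vertex of a wheel is the hub of the next wheel.
-/

set_option autoImplicit false

namespace Pool.Agent.Q124.STB

open SimpleGraph H279R3

/-- the cyclic group indexing the rim of a wheel -/
abbrev Z : Type := ZMod 16

/-- the oriented edges: half spokes and rim edges -/
def Rl (p q : List Z × Bool) : Prop :=
  (∃ w a, p = (w, false) ∧ q = (a :: w, true)) ∨ (∃ x, p = (x, true) ∧ q = (x, false)) ∨
    (∃ a w, p = (a :: w, false) ∧ q = ((a + 1) :: w, false))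

theorem Rl_irrefl (p : List Z × Bool) : ¬ Rl p p := by
  rintro (⟨w, a, h1, h2⟩ | ⟨x, h1, h2⟩ | ⟨a, w, h1, h2⟩)
  · have := congrArg Prod.snd (h1.symm.trans h2); simp at this
  · have := congrArg Prod.snd (h1.symm.trans h2); simp at this
  · have := congrArg Prod.fst (h1.symm.trans h2)
    simp only [List.cons.injEq, and_true] at this
    have key : ∀ a : Z, a ≠ a + 1 := by decide
    exact key a this

/-- vertices of the graph of depth `N`: `(x, false)` a hub or rim vertex, `(x, true)` the middle
of the spoke that ends at `(x, false)` -/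
abbrev Vx (N : ℕ) : Type := {p : List Z × Bool // p.1.length ≤ N ∧ (p.2 = true → p.1 ≠ [])}

/-- the recursive wheel graph of depth `N` -/
def Gr (N : ℕ) : SimpleGraph (Vx N) where
  Adj u v := Rl u.1 v.1 ∨ Rl v.1 u.1
  symm := ⟨fun _ _ h => h.symm⟩
  loopless := ⟨fun u h => by rcases h with h | h <;> exact Rl_irrefl _ h⟩

variable {N : ℕ}

/-- the hub or rim vertex -/
def H (w : List Z) (h : w.length ≤ N) : Vx N := ⟨(w, false), h, by simp⟩

/-- the middle of a spoke -/
def M (a : Z) (w : List Z) (h : (a :: w).length ≤ N) : Vx N := ⟨(a :: w, true), h, by simp⟩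

theorem adj_HM (a : Z) (w : List Z) (h : (a :: w).length ≤ N) :
    (Gr N).Adj (H w (by simp at h; omega)) (M a w h) := Or.inl (Or.inl ⟨w, a, rfl, rfl⟩)

theorem adj_MH (a : Z) (w : List Z) (h : (a :: w).length ≤ N) :
    (Gr N).Adj (M a w h) (H (a :: w) h) := Or.inl (Or.inr (Or.inl ⟨_, rfl, rfl⟩))

theorem adj_HH (a : Z) (w : List Z) (h : (a :: w).length ≤ N) :
    (Gr N).Adj (H (a :: w) h) (H ((a + 1) :: w) (by simpa using h)) :=
  Or.inl (Or.inr (Or.inr ⟨_, _, rfl, rfl⟩))

theorem vx_cases (u : Vx N) : (∃ w h, u = H w h) ∨ ∃ a w h, u = M a w h := by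
  obtain ⟨⟨x, b⟩, h1, h2⟩ := u
  cases b with
  | false => exact Or.inl ⟨x, h1, rfl⟩
  | true =>
    cases x with
    | nil => exact absurd rfl (h2 rfl)
    | cons a w => exact Or.inr ⟨a, w, h1, rfl⟩

theorem reach_H (w : List Z) (h : w.length ≤ N) :
    (Gr N).Reachable (H w h) (H [] (Nat.zero_le _)) := by
  induction w with
  | nil => exact Reachable.refl _
  | cons a w ih =>
    exact ((adj_MH a w h).symm.reachable.trans (adj_HM a w h).symm.reachable).trans
      (ih (by simp at h; omega))

theorem conn : (Gr N).Connected := by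
  have key : ∀ u : Vx N, (Gr N).Reachable u (H [] (Nat.zero_le _)) := by
    intro u
    rcases vx_cases u with ⟨w, h, rfl⟩ | ⟨a, w, h, rfl⟩
    · exact reach_H w h
    · exact (adj_HM a w h).symm.reachable.trans (reach_H w _)
  exact { preconnected := fun u v => (key u).trans (key v).symm, nonempty := ⟨H [] (Nat.zero_le _)⟩ }

theorem d_HM (a : Z) (w : List Z) (h : (a :: w).length ≤ N) :
    (Gr N).dist (H w (by simp at h; omega)) (M a w h) = 1 := dist_eq_one_iff_adj.2 (adj_HM a w h)

theorem d_MH (a : Z) (w : List Z) (h : (a :: w).length ≤ N) :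
    (Gr N).dist (M a w h) (H (a :: w) h) = 1 := dist_eq_one_iff_adj.2 (adj_MH a w h)

theorem d_HH (a : Z) (w : List Z) (h : (a :: w).length ≤ N) :
    (Gr N).dist (H (a :: w) h) (H ((a + 1) :: w) (by simpa using h)) = 1 :=
  dist_eq_one_iff_adj.2 (adj_HH a w h)

theorem d_H_cons (a : Z) (w : List Z) (h : (a :: w).length ≤ N) :
    (Gr N).dist (H w (by simp at h; omega)) (H (a :: w) h) ≤ 2 := by
  have := conn.dist_triangle (G := Gr N) (u := H w (by simp at h; omega)) (v := M a w h)
    (w := H (a :: w) h)
  rw [d_HM, d_MH] at this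
  exact this

/-- to check that a function is one-Lipschitz it suffices to look at oriented edges -/
theorem lip' (f : List Z × Bool → ℤ)
    (h1 : ∀ a w, |f (w, false) - f (a :: w, true)| ≤ 1)
    (h2 : ∀ a w, |f (a :: w, true) - f (a :: w, false)| ≤ 1)
    (h3 : ∀ a w, |f (a :: w, false) - f ((a + 1) :: w, false)| ≤ 1) (u v : Vx N) :
    f v.1 ≤ f u.1 + (Gr N).dist u v := by
  refine lip conn (fun x : Vx N => f x.1) (fun x y hxy => ?_) u v
  have key : ∀ x y : Vx N, Rl x.1 y.1 → |f x.1 - f y.1| ≤ 1 := by
    rintro x y (⟨w, a, e1, e2⟩ | ⟨z, e1, e2⟩ | ⟨a, w, e1, e2⟩)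
    · rw [e1, e2]; exact h1 a w
    · cases z with
      | nil => exact absurd (by rw [e1]) (x.2.2 (by rw [e1]))
      | cons a w => rw [e1, e2]; exact h2 a w
    · rw [e1, e2]; exact h3 a w
  rcases hxy with h | h
  · have := (abs_le.1 (key x y h)).1
    linarith
  · have := (abs_le.1 (key y x h)).2
    linarith

/-- the level -/
def lam (p : List Z × Bool) : ℤ := 2 * (p.1.length : ℤ) - (if p.2 then 1 else 0)

theorem lam_lip (u v : Vx N) : lam v.1 ≤ lam u.1 + (Gr N).dist u v := by
  refine lip' lam ?_ ?_ ?_ u v <;> intro a w <;> simp [lam] <;> ring_nf <;> norm_num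

/-- the branch hanging at a hub -/
def In (w : List Z) (p : List Z × Bool) : Prop := w <:+ p.1 ∧ ¬ (p.1 = w ∧ p.2 = true)

theorem In_self (w : List Z) : In w (w, false) := ⟨List.suffix_refl _, by simp⟩

theorem In_cut (w : List Z) (hw : w.length ≤ N) (x y : Vx N) (hx : In w x.1) (hy : ¬ In w y.1)
    (h : (Gr N).Adj x y) : x = H w hw := by
  apply Subtype.ext
  show x.1 = (w, false)
  rcases h with (⟨v, a, e1, e2⟩ | ⟨z, e1, e2⟩ | ⟨a, v, e1, e2⟩) |
    (⟨v, a, e2, e1⟩ | ⟨z, e2, e1⟩ | ⟨a, v, e2, e1⟩) <;> rw [e1] at hx ⊢ <;> rw [e2] at hy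
  · exfalso; apply hy
    refine ⟨hx.1.trans (List.suffix_cons a v), fun hh => ?_⟩
    have h1 : (a :: v).length = w.length := by rw [← hh.1]
    have h2 := hx.1.length_le
    simp at h1 h2; omega
  · exfalso; apply hy
    exact ⟨hx.1, by simp⟩
  · rcases List.suffix_cons_iff.1 hx.1 with h1 | h1
    · rw [h1]
    · exact absurd ⟨h1.trans (List.suffix_cons _ _), by simp⟩ hy
  · exfalso; apply hy
    rcases List.suffix_cons_iff.1 hx.1 with h1 | h1
    · exact absurd ⟨h1.symm, rfl⟩ hx.2
    · exact ⟨h1, by simp⟩
  · by_contra hne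
    apply hy
    refine ⟨hx.1, fun hh => hne ?_⟩
    rw [← hh.1]
  · rcases List.suffix_cons_iff.1 hx.1 with h1 | h1
    · rw [h1]
    · exact absurd ⟨h1.trans (List.suffix_cons _ _), by simp⟩ hy

theorem cutIn (w : List Z) (hw : w.length ≤ N) {u z : Vx N} (hu : In w u.1) (hz : ¬ In w z.1) :
    (Gr N).dist u (H w hw) + (Gr N).dist (H w hw) z ≤ (Gr N).dist u z :=
  cut conn {x : Vx N | In w x.1} (H w hw) (In_self w)
    (fun x hx y hy h => In_cut w hw x y hx hy h) hu hz

/-- the first step below `t` -/
def sel (t : List Z) : List Z → Option Z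
  | [] => none
  | a :: w => if w = t then some a else sel t w

theorem sel_none_of_length (t : List Z) (x : List Z) (h : x.length ≤ t.length) :
    sel t x = none := by
  induction x with
  | nil => rfl
  | cons a w ih =>
    have : w ≠ t := by rintro rfl; simp at h
    rw [sel, if_neg this]
    exact ih (by simp at h; omega)

theorem sel_some_iff (t x : List Z) (q : Z) : sel t x = some q ↔ (q :: t) <:+ x := by
  induction x with
  | nil => simp [sel]
  | cons a w ih =>
    rw [sel]
    by_cases h : w = t
    · subst h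
      rw [if_pos rfl]
      constructor
      · intro h; rw [Option.some.inj h]
      · intro h
        have := h.eq_of_length (by simp)
        simp at this
        rw [this]
    · rw [if_neg h, ih, List.suffix_cons_iff]
      constructor
      · exact Or.inr
      · rintro (h1 | h1)
        · simp at h1; exact absurd h1.2.symm h
        · exact h1

/-- a point of the branch at `t` other than `t` lies below exactly one rim vertex -/
theorem exists_sel {t : List Z} {x : List Z} (h : t <:+ x) (hne : x ≠ t) :
    ∃ q, (q :: t) <:+ x := by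
  induction x with
  | nil => exact absurd (List.suffix_nil.1 h).symm hne
  | cons a w ih =>
    rcases List.suffix_cons_iff.1 h with h1 | h1
    · exact absurd h1.symm hne
    · by_cases hw : w = t
      · exact ⟨a, by rw [hw]⟩
      · obtain ⟨q, hq⟩ := ih h1 hw
        exact ⟨q, hq.trans (List.suffix_cons _ _)⟩

/-- a potential depending only on the wheel at `t` -/
def pot (t : List Z) (hub : ℤ) (mid rim : Z → ℤ) (p : List Z × Bool) : ℤ :=
  match p with
  | ([], _) => hub
  | (a :: w, b) =>
    if w = t then (if b then mid a else rim a)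
    else (match sel t w with
      | none => hub
      | some q => rim q)

theorem pot_false (t : List Z) (hub : ℤ) (mid rim : Z → ℤ) (w : List Z) :
    pot t hub mid rim (w, false) = (match sel t w with
      | none => hub
      | some q => rim q) := by
  cases w with
  | nil => rfl
  | cons a w =>
    rw [sel]
    by_cases h : w = t
    · simp [pot, h]
    · simp [pot, h]

theorem pot_lip (t : List Z) (hub : ℤ) (mid rim : Z → ℤ) (h1 : ∀ q, |hub - mid q| ≤ 1)
    (h2 : ∀ q, |mid q - rim q| ≤ 1) (h3 : ∀ q, |rim q - rim (q + 1)| ≤ 1) (u v : Vx N) :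
    pot t hub mid rim v.1 ≤ pot t hub mid rim u.1 + (Gr N).dist u v := by
  refine lip' (pot t hub mid rim) ?_ ?_ ?_ u v
  · intro a w
    rw [pot_false]
    by_cases h : w = t
    · subst h
      rw [sel_none_of_length w w le_rfl]
      simpa [pot] using h1 a
    · simp [pot, h]
  · intro a w
    by_cases h : w = t
    · simpa [pot, h] using h2 a
    · simp [pot, h]
  · intro a w
    by_cases h : w = t
    · simpa [pot, h] using h3 a
    · simp [pot, h]

/-- cyclic distance to zero -/
def cd (q : Z) : ℤ := min (q.val : ℤ) (16 - q.val)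

/-- distance between rim vertices -/
theorem d_rim (t : List Z) (ht : t.length + 1 ≤ N) (p q : Z) :
    min 4 (cd (q - p)) ≤ (Gr N).dist (H (p :: t) (by simpa using ht)) (H (q :: t) (by simpa using ht)) := by
  have key := pot_lip (N := N) t 2 (fun q => min 3 (1 + cd (q - p))) (fun q => min 4 (cd (q - p)))
    (by revert p; decide) (by revert p; decide) (by revert p; decide)
    (H (p :: t) (by simpa using ht)) (H (q :: t) (by simpa using ht))
  have e : ∀ p : Z, min 4 (cd (p - p)) = 0 := by decide
  have e1 : ∀ (q : Z) (h : (q :: t).length ≤ N), (H (q :: t) h : Vx N).1 = (q :: t, false) :=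
    fun _ _ => rfl
  simp only [e1, pot, if_true, e] at key
  simpa using key

/-- distance from the middle of a spoke to rim vertices -/
theorem d_mid (t : List Z) (ht : t.length + 1 ≤ N) (p q : Z) :
    min 3 (1 + cd (q - p)) ≤ (Gr N).dist (M p t (by simpa using ht)) (H (q :: t) (by simpa using ht)) := by
  have key := pot_lip (N := N) t 1 (fun q => if q = p then 0 else 2)
    (fun q => min 3 (1 + cd (q - p)))
    (by revert p; decide) (by revert p; decide) (by revert p; decide)
    (M p t (by simpa using ht)) (H (q :: t) (by simpa using ht))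
  have e1 : ∀ (q : Z) (h : (q :: t).length ≤ N), (H (q :: t) h : Vx N).1 = (q :: t, false) :=
    fun _ _ => rfl
  have e2 : ∀ (q : Z) (h : (q :: t).length ≤ N), (M q t h : Vx N).1 = (q :: t, true) :=
    fun _ _ => rfl
  simp only [e1, e2, pot, if_true] at key
  simpa using key

/-- descending vertices -/
theorem exists_down (w : List Z) (hw : w.length ≤ N) (h : ℕ) (hh : 2 * w.length + h ≤ 2 * N) :
    ∃ u : Vx N, In w u.1 ∧ lam u.1 = 2 * w.length + h ∧ (Gr N).dist (H w hw) u ≤ h := by
  induction h with
  | zero => exact ⟨H w hw, In_self w, by simp [lam, H], by simp⟩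
  | succ h ih =>
    obtain ⟨u, hu1, hu2, hu3⟩ := ih (by omega)
    rcases vx_cases u with ⟨v, hv, rfl⟩ | ⟨a, v, hv, rfl⟩
    · have hlen : 2 * (v.length : ℤ) = 2 * w.length + h := by simpa [lam, H] using hu2
      have hv' : ((0 : Z) :: v).length ≤ N := by simp; omega
      refine ⟨M 0 v hv', ⟨hu1.1.trans (List.suffix_cons _ _), fun hh => ?_⟩, ?_, ?_⟩
      · have h1 : ((0 : Z) :: v).length = w.length := by rw [← hh.1]; rfl
        have h2 := hu1.1.length_le
        simp [H] at h1 h2; omega
      · simp only [lam, M]; simp; linarith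
      · have := conn.dist_triangle (G := Gr N) (u := H w hw) (v := H v hv) (w := M 0 v hv')
        rw [d_HM] at this
        omega
    · have hlen : 2 * ((v.length : ℤ) + 1) - 1 = 2 * w.length + h := by simpa [lam, M] using hu2
      refine ⟨H (a :: v) hv, ⟨hu1.1, by simp [H]⟩, ?_, ?_⟩
      · simp only [lam, H]; simp; linarith
      · have := conn.dist_triangle (G := Gr N) (u := H w hw) (v := M a v hv) (w := H (a :: v) hv)
        rw [d_MH] at this
        omega

end Pool.Agent.Q124.STB
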