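import Mathlib
import Pool.Agent.Q124.STB.Graph

/-!
No tree-decomposition of the recursive wheel graph has all bags equal to disks of radius `r`,
when the depth exceeds `r`.
-/

set_option autoImplicit false

namespace Pool.Agent.Q124.STB

open SimpleGraph H279R3

variable {N : ℕ}

theorem len_cons {t : List Z} (ht : t.length + 1 ≤ N) (q : Z) : (q :: t).length ≤ N := by
  simpa using ht

/-- a vertex far from the hub `t` is near to rim vertices in a short arc only -/
theorem near (t : List Z) (ht : t.length + 1 ≤ N) (a : ℕ) (z : Vx N)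
    (hz : a ≤ (Gr N).dist (H t (by omega)) z) :
    ∃ p : Z, ∀ q : Z, (In (q :: t) z.1 ∨ (Gr N).dist (H (q :: t) (len_cons ht q)) z ≤ a + 1) →
      cd (q - p) ≤ 3 := by
  have hlam : ∀ q : Z, 2 ≤ (Gr N).dist (H (q :: t) (len_cons ht q)) (H t (by omega)) := by
    intro q
    have := lam_lip (N := N) (H t (by omega)) (H (q :: t) (len_cons ht q))
    rw [dist_comm] at this
    simp only [lam, H] at this
    simp at this
    have h2 : (2 : ℤ) ≤ (Gr N).dist (H (q :: t) (len_cons ht q)) (H t (by omega)) := by
      simp only [H]; linarith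
    exact_mod_cast h2
  have hself : cd 0 ≤ 3 := by decide
  have ht0 : t.length ≤ N := by omega
  by_cases h1 : In t z.1
  · by_cases h2 : z.1.1 = t
    · -- z is the hub
      have h3 : z = H t ht0 := by
        apply Subtype.ext
        apply Prod.ext
        · exact h2
        · by_contra hc
          exact h1.2 ⟨h2, by simpa [H] using hc⟩
      clear h1 h2
      subst h3
      refine ⟨0, fun q hq => ?_⟩
      rw [SimpleGraph.dist_self] at hz
      rcases hq with hq | hq
      · have := hq.1.length_le
        simp [H] at this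
      · have := hlam q
        omega
    · obtain ⟨p, hp⟩ := exists_sel h1.1 h2
      by_cases h3 : In (p :: t) z.1
      · refine ⟨p, fun q hq => ?_⟩
        by_cases hqp : q = p
        · subst hqp; rw [sub_self]; exact hself
        have hnq : ¬ In (q :: t) z.1 := by
          intro h4
          have h5 := (sel_some_iff t z.1.1 q).2 h4.1
          have h6 := (sel_some_iff t z.1.1 p).2 hp
          rw [h5] at h6
          exact hqp (Option.some.inj h6)
        have hq := hq.resolve_left hnq
        have hnv : ¬ In (p :: t) (H (q :: t) (len_cons ht q)).1 := by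
          intro h4
          have := h4.1.eq_of_length (by simp [H])
          simp [H] at this
          exact hqp this.symm
        have h7 := cutIn (p :: t) (len_cons ht p) h3 hnv
        have h8 := d_rim t ht p q
        have h9 := conn.dist_triangle (G := Gr N) (u := H t (by omega))
          (v := H (p :: t) (len_cons ht p)) (w := z)
        have h10 := d_H_cons (N := N) p t (len_cons ht p)
        rw [dist_comm (u := z) (v := H (q :: t) (len_cons ht q)),
          dist_comm (u := z) (v := H (p :: t) (len_cons ht p))] at h7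
        have h11 : (Gr N).dist (H (p :: t) (len_cons ht p)) (H (q :: t) (len_cons ht q)) ≤ 3 := by
          omega
        have h12 : ((Gr N).dist (H (p :: t) (len_cons ht p)) (H (q :: t) (len_cons ht q)) : ℤ) ≤ 3 := by
          exact_mod_cast h11
        have h13 : min 4 (cd (q - p)) ≤ 3 := le_trans h8 h12
        rcases min_le_iff.1 h13 with h | h
        · norm_num at h
        · exact h
      · -- z is the middle of the spoke
        have hz1 : z.1 = (p :: t, true) := by
          by_contra hc
          apply h3
          refine ⟨hp, fun h4 => hc (Prod.ext h4.1 h4.2)⟩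
        have hz2 : z = M p t (len_cons ht p) := Subtype.ext hz1
        subst hz2
        rw [d_HM] at hz
        refine ⟨p, fun q hq => ?_⟩
        have hnq : ¬ In (q :: t) (M p t (len_cons ht p)).1 := by
          intro h4
          have h5 := h4.1.eq_of_length (by simp [M])
          exact h4.2 ⟨h5.symm, rfl⟩
        have hq := hq.resolve_left hnq
        have h8 := d_mid t ht p q
        rw [SimpleGraph.dist_comm] at hq
        have h12 : ((Gr N).dist (M p t (len_cons ht p)) (H (q :: t) (len_cons ht q)) : ℤ) ≤ 2 := by
          have : (Gr N).dist (M p t (len_cons ht p)) (H (q :: t) (len_cons ht q)) ≤ 2 := by omega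
          exact_mod_cast this
        have h13 : min 3 (1 + cd (q - p)) ≤ 2 := le_trans h8 h12
        rcases min_le_iff.1 h13 with h | h
        · norm_num at h
        · linarith
  · refine ⟨0, fun q hq => ?_⟩
    exfalso
    rcases hq with hq | hq
    · apply h1
      refine ⟨(List.suffix_cons q t).trans hq.1, fun h4 => ?_⟩
      have h5 := hq.1.length_le
      rw [h4.1] at h5
      simp at h5
    · have hu : In t (H (q :: t) (len_cons ht q)).1 := ⟨List.suffix_cons q t, by simp [H]⟩
      have h7 := cutIn t (by omega) hu h1
      have := hlam q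
      omega

/-- one more step down -/
theorem step {ι : Type} {T : SimpleGraph ι} (hT : T.IsTree) (r : ℕ) (hr : r + 1 ≤ N)
    (s : ι → Vx N)
    (hedge : ∀ u v, (Gr N).Adj u v → ∃ i, (Gr N).dist u (s i) ≤ r ∧ (Gr N).dist v (s i) ≤ r)
    (hconn : ∀ v, WConn T {i | (Gr N).dist v (s i) ≤ r})
    (t : List Z) (ht : t.length ≤ r)
    (h : ∀ i, t.length ≤ (Gr N).dist (H t (by omega)) (s i)) :
    ∃ q : Z, ∀ i, t.length + 1 ≤ (Gr N).dist (H (q :: t) (len_cons (by omega) q)) (s i) := by
  have ht' : t.length + 1 ≤ N := by omega
  by_contra hcon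
  push Not at hcon
  obtain ⟨u, hu1, hu2⟩ : ∃ u : Z → Vx N,
      (∀ q z, (Gr N).dist (u q) z ≤ r → In (q :: t) z.1 ∨
        (Gr N).dist (H (q :: t) (len_cons ht' q)) z ≤ t.length + 1) ∧
      (∀ q, ∃ i, (Gr N).dist (u q) (s i) ≤ r ∧ (Gr N).dist (u (q + 1)) (s i) ≤ r) := by
    rcases Nat.lt_or_ge t.length r with hlt | hge
    · have hd := fun q : Z => exists_down (q :: t) (len_cons ht' q) (r - t.length - 1)
        (by simp; omega)
      choose u h1 h2 h3 using hd
      refine ⟨u, fun q z hz => ?_, fun q => ?_⟩
      · by_cases hin : In (q :: t) z.1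
        · exact Or.inl hin
        · right
          have h4 := cutIn (q :: t) (len_cons ht' q) (h1 q) hin
          have h5 := lam_lip (H (q :: t) (len_cons ht' q)) (u q)
          rw [h2 q, dist_comm] at h5
          have h6 : lam (H (q :: t) (len_cons ht' q) : Vx N).1 = 2 * ((q :: t).length : ℤ) := by
            simp [lam, H]
          rw [h6] at h5
          have h7 : ((r - t.length - 1 : ℕ) : ℤ) ≤ (Gr N).dist (u q) (H (q :: t) (len_cons ht' q)) := by
            linarith
          have h8 : r - t.length - 1 ≤ (Gr N).dist (u q) (H (q :: t) (len_cons ht' q)) := by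
            exact_mod_cast h7
          omega
      · obtain ⟨i, hi⟩ := hcon q
        refine ⟨i, ?_, ?_⟩
        · have h4 := conn.dist_triangle (G := Gr N) (u := u q) (v := H (q :: t) (len_cons ht' q))
            (w := s i)
          have h5 := h3 q
          rw [dist_comm] at h5
          omega
        · have h4 := conn.dist_triangle (G := Gr N) (u := u (q + 1))
            (v := H ((q + 1) :: t) (len_cons ht' (q + 1))) (w := s i)
          have h5 := h3 (q + 1)
          rw [dist_comm] at h5
          have h6 := conn.dist_triangle (G := Gr N) (u := H ((q + 1) :: t) (len_cons ht' (q + 1)))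
            (v := H (q :: t) (len_cons ht' q)) (w := s i)
          have h7 := d_HH (N := N) q t (len_cons ht' q)
          rw [dist_comm] at h7
          omega
    · refine ⟨fun q => H (q :: t) (len_cons ht' q), fun q z hz => Or.inr (by simp only at hz; omega), fun q => ?_⟩
      exact hedge _ _ (adj_HH q t (len_cons ht' q))
  obtain ⟨x, hx⟩ := cyc hT (fun q => {i | (Gr N).dist (u q) (s i) ≤ r}) (fun q => hconn _)
    (fun q => by obtain ⟨i, h1, h2⟩ := hu2 q; exact ⟨i, h1, h2⟩)
  obtain ⟨p, hp⟩ := near t ht' t.length (s x) (h x)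
  obtain ⟨j, hj, hxj⟩ := hx (p + 4)
  have h1 := hp _ (hu1 _ _ hxj)
  have key : ∀ p : Z, ∀ j : Fin 9, ¬ cd (p + 4 + ((j : ℕ) : Z) - p) ≤ 3 := by decide
  exact key p ⟨j, by omega⟩ h1

/-- **No strong decomposition of radius smaller than the depth.** -/
theorem no_strong {ι : Type} {T : SimpleGraph ι} (hT : T.IsTree) (r : ℕ) (hr : r + 1 ≤ N)
    (s : ι → Vx N) (hcov : ∀ v, ∃ i, (Gr N).dist v (s i) ≤ r)
    (hedge : ∀ u v, (Gr N).Adj u v → ∃ i, (Gr N).dist u (s i) ≤ r ∧ (Gr N).dist v (s i) ≤ r)
    (hconn : ∀ v, WConn T {i | (Gr N).dist v (s i) ≤ r}) : False := by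
  have key : ∀ k : ℕ, k ≤ r + 1 → ∃ (t : List Z) (h : t.length ≤ N), t.length = k ∧
      ∀ i, t.length ≤ (Gr N).dist (H t h) (s i) := by
    intro k
    induction k with
    | zero => exact fun _ => ⟨[], Nat.zero_le _, rfl, fun i => Nat.zero_le _⟩
    | succ k ih =>
      intro hk
      obtain ⟨t, h1, h2, h3⟩ := ih (by omega)
      obtain ⟨q, hq⟩ := step hT r hr s hedge hconn t (by omega) h3
      exact ⟨q :: t, len_cons (by omega) q, by simp [h2], fun i => by simpa using hq i⟩
  obtain ⟨t, h1, h2, h3⟩ := key (r + 1) le_rfl
  obtain ⟨i, hi⟩ := hcov (H t h1)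
  have := h3 i
  omega

end Pool.Agent.Q124.STB
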